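import Pool.Agent.Q123.SR.Serre

set_option autoImplicit false

/-!
Serre's condition for a simplicial complex after removing an excellent set of faces: the proof.
-/

namespace Pool.Agent.Q123.SR

open Finset Pool.Agent.H677R3.EdgeReg Pool.Agent.Q123.KB Pool.Agent.Q123.ML

variable {n : ℕ} {K : Type*} [Field K]

theorem card_le_size {Δ : Finset (Finset (Fin n))} {σ : Finset (Fin n)} (h : σ ∈ Δ) :
    σ.card ≤ size Δ := Finset.le_sup (f := Finset.card) h

theorem exists_size {Δ : Finset (Finset (Fin n))} {i : ℕ} (h : i < size Δ) :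
    ∃ σ ∈ Δ, i < σ.card := by
  unfold size at h
  rwa [Finset.lt_sup_iff] at h

theorem pure_facet {Δ : Finset (Finset (Fin n))} (hp : IsPure Δ) {F : Finset (Fin n)}
    (hF : IsFacet Δ F) {σ : Finset (Fin n)} (hσ : σ ∈ Δ) : σ.card ≤ F.card := by
  obtain ⟨G, hG, h⟩ := exists_facet hσ
  rw [hp F G hF hG]
  exact Finset.card_le_card h

/-- every face avoiding `A` is properly contained in a facet -/
theorem proper_facet {Δ A : Finset (Finset (Fin n))} (hA : Excellent Δ A) {σ : Finset (Fin n)}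
    (hσ : σ ∈ remove Δ A) : ∃ F, IsFacet Δ F ∧ σ ⊆ F ∧ ∃ ρ ∈ A, ρ ⊆ F ∧ ∃ v ∈ ρ, v ∉ σ := by
  obtain ⟨h1, h2⟩ := mem_remove.1 hσ
  obtain ⟨F, hF, h3⟩ := exists_facet h1
  obtain ⟨ρ, hρ, h4⟩ := hA.2 F hF
  refine ⟨F, hF, h3, ρ, hρ, h4, ?_⟩
  by_contra h
  push Not at h
  exact h2 ρ hρ (fun v hv => h v hv)

theorem erase_mem {Δ A : Finset (Finset (Fin n))} (hΔ : IsComplex Δ) (hA : Excellent Δ A)
    {F ρ : Finset (Fin n)} (hF : F ∈ Δ) (hρ : ρ ∈ A) (hρF : ρ ⊆ F) {v : Fin n} (hv : v ∈ ρ) :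
    F.erase v ∈ remove Δ A := by
  refine mem_remove.2 ⟨hΔ.2 F hF _ (Finset.erase_subset _ _), fun τ hτ h => ?_⟩
  by_cases h1 : ρ = τ
  · subst h1
    exact (Finset.mem_erase.1 (h hv)).1 rfl
  · exact hA.1.2 ρ hρ τ hτ h1 (hΔ.2 F hF _ (Finset.union_subset hρF
      (h.trans (Finset.erase_subset _ _))))

theorem remove_pure {Δ A : Finset (Finset (Fin n))} (hΔ : IsComplex Δ) (hA : Excellent Δ A)
    (hp : IsPure Δ) : IsPure (remove Δ A) := by
  have key : ∀ F G, IsFacet (remove Δ A) F → IsFacet (remove Δ A) G → F.card ≤ G.card := by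
    intro F G hF hG
    obtain ⟨F', hF', h1, ρ, hρ, h2, v, hv, hvF⟩ := proper_facet hA hF.1
    obtain ⟨G', hG', g1, ρ', hρ', g2, w, hw, hwG⟩ := proper_facet hA hG.1
    have g3 : G ⊆ G'.erase w := fun x hx => Finset.mem_erase.2 ⟨fun h => hwG (h ▸ hx), g1 hx⟩
    have g4 := hG.2 _ (erase_mem hΔ hA hG'.1 hρ' g2 hw) g3
    have h3 : F ⊆ F'.erase v := fun x hx => Finset.mem_erase.2 ⟨fun h => hvF (h ▸ hx), h1 hx⟩
    have h4 := Finset.card_le_card h3
    rw [← g4, Finset.card_erase_of_mem (g2 hw), hp G' F' hG' hF']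
    rwa [Finset.card_erase_of_mem (h2 hv)] at h4
  exact fun F G hF hG => le_antisymm (key F G hF hG) (key G F hG hF)

/-- the reduced homology in degree `-1` of a complex with a vertex -/
theorem dimH_zero {Γ : Finset (Finset (Fin n))} {v : Fin n} (hvΓ : {v} ∈ Γ) : dimH K Γ 0 = 0 := by
  classical
  unfold dimH
  refine combBetti_eq_zero fun a ha => ?_
  have hcd : cd a = 0 := ha.2
  refine ⟨hv v a, ?_, ?_⟩
  · intro T hT
    unfold hv at hT
    split_ifs at hT with h1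
    · have h2 : a (T.erase v) ≠ 0 := fun h => hT (by rw [h, mul_zero])
      have h3 := Finset.card_eq_zero.1 (ha.1 _ h2).2
      have h4 : T = {v} := by
        rw [← Finset.insert_erase h1, h3]; rfl
      rw [h4]
      exact ⟨hvΓ, by simp⟩
    · exact absurd rfl hT
  · change cd (hv v a) = a
    ext1 T
    have := homotopy v a T
    rw [hcd] at this
    unfold hv at this ⊢
    simpa using this

theorem main {Δ A : Finset (Finset (Fin n))} (hΔ : IsComplex Δ) (hA : Excellent Δ A) {l : ℕ}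
    (hS : SerreS K Δ l) : SerreS K (remove Δ A) l := by
  classical
  refine ⟨fun hl => remove_pure hΔ hA (hS.1 hl), fun τ hτ i hil hi => ?_⟩
  obtain ⟨T₀, hT₀, hT₀i⟩ := exists_size hi
  obtain ⟨hd₀, hm₀⟩ := mem_link.1 hT₀
  have hdown : ∀ σ ∈ Δ, ∀ τ, τ ⊆ σ → τ ∈ Δ := hΔ.2
  have hrem : ∀ σ ∈ remove Δ A, ∀ τ, τ ⊆ σ → τ ∈ remove Δ A := by
    intro σ hσ τ hτ
    obtain ⟨h1, h2⟩ := mem_remove.1 hσ
    exact mem_remove.2 ⟨hΔ.2 σ h1 τ hτ, fun ρ hρ h => h2 ρ hρ (h.trans hτ)⟩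
  rcases Nat.eq_zero_or_pos i with hi0 | hi0
  · subst hi0
    obtain ⟨v, hv⟩ := Finset.card_pos.1 hT₀i
    refine dimH_zero (v := v) (mem_link.2 ⟨Finset.disjoint_singleton_left.2
      (Finset.disjoint_left.1 hd₀ hv), hrem _ hm₀ _ ?_⟩)
    exact Finset.union_subset_union (Finset.singleton_subset_iff.2 hv) (Finset.Subset.refl _)
  have hp := hS.1 (by omega)
  have hτΔ : τ ∈ Δ := (mem_remove.1 hτ).1
  -- a facet containing `T₀ ∪ τ`
  obtain ⟨F₀, hF₀, h1, ρ₀, hρ₀, h2, v₀, hv₀, hv₀n⟩ := proper_facet hA hm₀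
  have hbig : i + 2 + τ.card ≤ F₀.card := by
    have h3 : T₀ ∪ τ ⊆ F₀.erase v₀ :=
      fun x hx => Finset.mem_erase.2 ⟨fun h => hv₀n (h ▸ hx), h1 hx⟩
    have h4 := Finset.card_le_card h3
    rw [Finset.card_union_of_disjoint hd₀, Finset.card_erase_of_mem (h2 hv₀)] at h4
    omega
  -- links of faces of the complex
  have hlink : ∀ ρ ∈ Δ, ∀ σ ∈ link Δ ρ, ∀ τ, τ ⊆ σ → τ ∈ link Δ ρ := by
    intro ρ _ σ hσ τ hτ
    obtain ⟨g1, g2⟩ := mem_link.1 hσ
    exact mem_link.2 ⟨g1.mono_left hτ, hdown _ g2 _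
      (Finset.union_subset_union hτ (Finset.Subset.refl _))⟩
  have hsz : ∀ ρ ∈ Δ, F₀.card - ρ.card ≤ size (link Δ ρ) := by
    intro ρ hρ
    obtain ⟨F, hF, h3⟩ := exists_facet hρ
    have h4 : F \ ρ ∈ link Δ ρ := mem_link.2 ⟨Finset.sdiff_disjoint, by
      rw [Finset.sdiff_union_of_subset h3]; exact hF.1⟩
    have h5 := card_le_size h4
    rw [Finset.card_sdiff_of_subset h3, hp F F₀ hF hF₀] at h5
    exact h5
  -- relative acyclicity of the removed part
  have hrel : RelAcyc K (fun T => Disjoint T τ ∧ T ∪ τ ∈ Δ ∧ ∃ σ ∈ A, σ ⊆ T ∪ τ) (i + 1) := by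
    refine relAcyc_union (fun _ => True) (i + 1) τ Δ hdown A
      (fun σ hσ σ' hσ' h => hA.1.2 σ hσ σ' hσ' h) fun σ hσ => ?_
    have hne : ¬ σ ⊆ τ := (mem_remove.1 hτ).2 σ hσ
    have hρ0 : 0 < (σ \ τ).card := Finset.card_pos.2 (Finset.sdiff_nonempty.2 hne)
    have heq : (fun T : Finset (Fin n) => Disjoint T τ ∧ T ∪ τ ∈ Δ ∧ σ ⊆ T ∪ τ) =
        (fun T => σ \ τ ⊆ T ∧ (fun R => R ∈ link Δ (σ ∪ τ)) (T \ (σ \ τ))) := by
      funext T
      apply propext
      have hu : σ \ τ ⊆ T → T \ (σ \ τ) ∪ (σ ∪ τ) = T ∪ τ := by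
        intro h
        ext x
        have := @h x
        simp only [Finset.mem_union, Finset.mem_sdiff] at this ⊢
        tauto
      constructor
      · rintro ⟨g1, g2, g3⟩
        have g4 : σ \ τ ⊆ T := by
          intro x hx
          rw [Finset.mem_sdiff] at hx
          exact (Finset.mem_union.1 (g3 hx.1)).resolve_right hx.2
        refine ⟨g4, mem_link.2 ⟨?_, by rw [hu g4]; exact g2⟩⟩
        rw [Finset.disjoint_left]
        intro x hx hx2
        rw [Finset.mem_sdiff, Finset.mem_sdiff] at hx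
        have g5 : x ∉ τ := Finset.disjoint_left.1 g1 hx.1
        rcases Finset.mem_union.1 hx2 with h | h
        · exact hx.2 ⟨h, g5⟩
        · exact g5 h
      · rintro ⟨g1, g2⟩
        obtain ⟨g3, g4⟩ := mem_link.1 g2
        rw [hu g1] at g4
        refine ⟨?_, g4, fun x hx => ?_⟩
        · rw [Finset.disjoint_left]
          intro x hx hx2
          by_cases h : x ∈ σ \ τ
          · exact (Finset.mem_sdiff.1 h).2 hx2
          · exact Finset.disjoint_left.1 g3 (Finset.mem_sdiff.2 ⟨hx, h⟩)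
              (Finset.mem_union_right _ hx2)
        · by_cases h : x ∈ τ
          · exact Finset.mem_union_right _ h
          · exact Finset.mem_union_left _ (g1 (Finset.mem_sdiff.2 ⟨hx, h⟩))
    rw [heq]
    by_cases hface : σ ∪ τ ∈ Δ
    swap
    · refine relAcyc_of_empty _ _ ?_
      rintro T ⟨-, g2⟩ -
      exact hface (hdown _ (mem_link.1 g2).2 _ Finset.subset_union_right)
    by_cases hsmall : i + 1 < (σ \ τ).card
    · refine relAcyc_of_empty _ _ ?_
      rintro T ⟨g1, -⟩ g2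
      have := Finset.card_le_card g1
      omega
    obtain ⟨m, hm⟩ : ∃ m, i + 1 = m + (σ \ τ).card := ⟨i + 1 - (σ \ τ).card, by omega⟩
    rw [hm]
    refine relAcyc_shift_set (σ \ τ) (fun R => R ∈ link Δ (σ ∪ τ)) (fun R hR =>
      (mem_link.1 hR).1.mono_right (Finset.sdiff_subset.trans Finset.subset_union_left)) m ?_
    refine rel_of_dimH (hlink _ hface) (hS.2 (σ ∪ τ) hface m (by omega) ?_)
    refine lt_of_lt_of_le ?_ (hsz _ hface)
    have hcard : (σ ∪ τ).card = (σ \ τ).card + τ.card := by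
      rw [← Finset.card_union_of_disjoint Finset.sdiff_disjoint, Finset.sdiff_union_self_eq_union]
    rw [hcard]
    omega
  -- the link of `τ` in the whole complex
  have hbase : dimH K (link Δ τ) i = 0 :=
    hS.2 τ hτΔ i hil (lt_of_lt_of_le (by omega) (hsz τ hτΔ))
  have hbase' := rel_of_dimH (hlink τ hτΔ) hbase
  unfold dimH
  refine combBetti_eq_zero fun a ha => ?_
  have hLsub : ∀ T, T ∈ link (remove Δ A) τ → T ∈ link Δ τ := by
    intro T hT
    obtain ⟨g1, g2⟩ := mem_link.1 hT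
    exact mem_link.2 ⟨g1, (mem_remove.1 g2).1⟩
  have hcd : cd a = 0 := ha.2
  obtain ⟨g, hg1, hg2⟩ := hbase' a (fun T hT => ⟨hLsub T (ha.1 T hT).1, (ha.1 T hT).2⟩)
    (fun T _ => congrFun hcd T)
  have hg3 : ∀ T, cd g T = a T := by
    intro T
    by_cases hT : T ∈ link Δ τ
    · exact hg2 T hT
    · have h3 : a T = 0 := by
        by_contra h
        exact hT (hLsub T (ha.1 T h).1)
      rw [h3]
      unfold cd
      refine Finset.sum_eq_zero fun j _ => ?_
      have : g (insert j T) = 0 := by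
        by_contra h
        exact hT (hlink τ hτΔ _ (hg1 _ h).1 T (Finset.subset_insert _ _))
      rw [this, mul_zero]
  let Q : Finset (Fin n) → Prop := fun T => Disjoint T τ ∧ T ∪ τ ∈ Δ ∧ ∃ σ ∈ A, σ ⊆ T ∪ τ
  have hQL : ∀ T, T ∈ link Δ τ → ¬ Q T → T ∈ link (remove Δ A) τ := by
    intro T hT hQ
    obtain ⟨g1, g2⟩ := mem_link.1 hT
    refine mem_link.2 ⟨g1, mem_remove.2 ⟨g2, fun σ hσ h => hQ ⟨g1, g2, σ, hσ, h⟩⟩⟩
  have hQnot : ∀ T, Q T → T ∉ link (remove Δ A) τ := by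
    rintro T ⟨-, -, σ, hσ, h⟩ h2
    exact (mem_remove.1 (mem_link.1 h2).2).2 σ hσ h
  let q : Finset (Fin n) → K := fun T => if Q T then g T else 0
  obtain ⟨c, hc1, hc2⟩ := hrel q (fun T hT => by
      simp only [q] at hT
      split_ifs at hT with h
      · exact ⟨h, (hg1 T hT).2⟩
      · exact absurd rfl hT) (fun T hT => by
      have h3 : a T = 0 := by
        by_contra h
        exact hQnot T hT (ha.1 T h).1
      rw [← h3, ← hg3 T]
      unfold cd
      refine Finset.sum_congr rfl fun j _ => ?_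
      congr 1
      simp only [q]
      split_ifs with h
      · rfl
      · by_contra h4
        have h5 : g (insert j T) ≠ 0 := fun h6 => h4 h6.symm
        obtain ⟨g1, g2⟩ := mem_link.1 (hg1 _ h5).1
        obtain ⟨-, -, σ, hσ, h6⟩ := hT
        exact h ⟨g1, g2, σ, hσ, h6.trans (Finset.union_subset_union (Finset.subset_insert _ _)
          (Finset.Subset.refl _))⟩)
  refine ⟨fun T => g T - cd c T, ?_, ?_⟩
  · intro T hT
    have h3 : T ∈ link Δ τ ∧ T.card = i + 1 := by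
      by_cases h4 : g T ≠ 0
      · exact hg1 T h4
      · push Not at h4
        have h5 : cd c T ≠ 0 := by
          intro h6
          apply hT
          simp only [h4, h6, sub_zero]
        unfold cd at h5
        obtain ⟨j, hj, hj2⟩ := Finset.exists_ne_zero_of_sum_ne_zero h5
        have h6 : c (insert j T) ≠ 0 := fun h => hj2 (by rw [h, mul_zero])
        obtain ⟨⟨h7, h8, -⟩, h9⟩ := hc1 _ h6
        rw [Finset.card_insert_of_notMem (by simpa using hj)] at h9
        refine ⟨hlink τ hτΔ (insert j T) (mem_link.2 ⟨h7, h8⟩) T (Finset.subset_insert _ _), by omega⟩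
    refine ⟨hQL T h3.1 fun hQ => ?_, h3.2⟩
    apply hT
    have h4 := hc2 T hQ
    simp only [q] at h4
    rw [if_pos hQ] at h4
    simp only [h4, sub_self]
  · change cd (fun T => g T - cd c T) = a
    ext1 T
    rw [cd_sub, hg3, cd_cd, sub_zero]

end Pool.Agent.Q123.SR
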