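import Pool.Agent.Q123.ML.Mat

set_option autoImplicit false

/-!
Serre's condition for a simplicial complex after removing an excellent set of faces.
-/

namespace Pool.Agent.Q123.SR

open Finset Pool.Agent.H677R3.EdgeReg Pool.Agent.Q123.KB Pool.Agent.Q123.ML

variable {n : ℕ}

/-- a simplicial complex on the vertex set `{0, …, n - 1}`, given by its faces -/
def IsComplex (Δ : Finset (Finset (Fin n))) : Prop :=
  ∅ ∈ Δ ∧ ∀ σ ∈ Δ, ∀ τ, τ ⊆ σ → τ ∈ Δ

/-- facets: faces which are maximal under inclusion -/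
def IsFacet (Δ : Finset (Finset (Fin n))) (F : Finset (Fin n)) : Prop :=
  F ∈ Δ ∧ ∀ G ∈ Δ, F ⊆ G → G = F

/-- all facets have the same number of elements -/
def IsPure (Δ : Finset (Finset (Fin n))) : Prop :=
  ∀ F G, IsFacet Δ F → IsFacet Δ G → F.card = G.card

/-- the link of a face -/
def link (Δ : Finset (Finset (Fin n))) (σ : Finset (Fin n)) : Finset (Finset (Fin n)) :=
  univ.filter fun T => Disjoint T σ ∧ T ∪ σ ∈ Δ

/-- one more than the dimension: the size of the largest faces -/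
def size (Δ : Finset (Finset (Fin n))) : ℕ := Δ.sup Finset.card

/-- The dimension of the reduced homology `H̃_p(Δ; K)`, `p = i - 1`: the faces with `i` elements have
dimension `i - 1`. -/
noncomputable def dimH (K : Type*) [Field K] (Δ : Finset (Finset (Fin n))) (i : ℕ) : ℕ :=
  combBetti K Δ i

/-- Serre's condition `(S_l)`, in the form of Terai's criterion: `Δ` is pure if `l ≥ 2`, and
`H̃_{i-1}(lk σ; K) = 0` for every face `σ` and every `i` with `i - 1 ≤ l - 2` and
`i - 1 < dim lk σ`. -/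
def SerreS (K : Type*) [Field K] (Δ : Finset (Finset (Fin n))) (l : ℕ) : Prop :=
  (2 ≤ l → IsPure Δ) ∧
    ∀ σ ∈ Δ, ∀ i : ℕ, i + 1 ≤ l → i < size (link Δ σ) → dimH K (link Δ σ) i = 0

/-- `A` is an independent set of faces: the union of two different members is not a face. -/
def Indep (Δ A : Finset (Finset (Fin n))) : Prop :=
  A ⊆ Δ ∧ ∀ σ ∈ A, ∀ τ ∈ A, σ ≠ τ → σ ∪ τ ∉ Δ

/-- `A` is excellent: independent, and every facet contains a member of `A`. -/
def Excellent (Δ A : Finset (Finset (Fin n))) : Prop :=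
  Indep Δ A ∧ ∀ F, IsFacet Δ F → ∃ σ ∈ A, σ ⊆ F

/-- the faces which contain no member of `A` -/
def remove (Δ A : Finset (Finset (Fin n))) : Finset (Finset (Fin n)) :=
  Δ.filter fun σ => ∀ τ ∈ A, ¬ τ ⊆ σ

theorem mem_link {Δ : Finset (Finset (Fin n))} {σ T : Finset (Fin n)} :
    T ∈ link Δ σ ↔ Disjoint T σ ∧ T ∪ σ ∈ Δ := by
  simp [link]

theorem mem_remove {Δ A : Finset (Finset (Fin n))} {σ : Finset (Fin n)} :
    σ ∈ remove Δ A ↔ σ ∈ Δ ∧ ∀ τ ∈ A, ¬ τ ⊆ σ := by
  simp [remove]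

theorem exists_facet {Δ : Finset (Finset (Fin n))} {σ : Finset (Fin n)} (h : σ ∈ Δ) :
    ∃ F, IsFacet Δ F ∧ σ ⊆ F := by
  obtain ⟨F, hF, hmax⟩ := Finset.exists_max_image (Δ.filter fun G => σ ⊆ G) Finset.card
    ⟨σ, Finset.mem_filter.2 ⟨h, Finset.Subset.refl _⟩⟩
  rw [Finset.mem_filter] at hF
  refine ⟨F, ⟨hF.1, fun G hG hFG => ?_⟩, hF.2⟩
  exact (Finset.eq_of_subset_of_card_le hFG (hmax G (Finset.mem_filter.2
    ⟨hG, hF.2.trans hFG⟩))).symm

variable {K : Type*} [Field K]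

/-- acyclicity of a complex as relative acyclicity -/
theorem rel_of_dimH {Δ : Finset (Finset (Fin n))} (hΔ : ∀ σ ∈ Δ, ∀ τ, τ ⊆ σ → τ ∈ Δ) {i : ℕ}
    (h : dimH K Δ i = 0) : RelAcyc K (fun T => T ∈ Δ) i := by
  intro a ha hc
  have h1 : a ∈ ccycles K Δ i := by
    refine ⟨ha, ?_⟩
    change cd a = 0
    ext1 T
    by_cases hT : T ∈ Δ
    · exact hc T hT
    · change cd a T = 0
      unfold cd
      refine Finset.sum_eq_zero fun j _ => ?_
      have : a (insert j T) = 0 := by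
        by_contra h2
        exact hT (hΔ _ (ha _ h2).1 T (Finset.subset_insert _ _))
      rw [this, mul_zero]
  have h2 : a ∈ cboundaries K Δ i := by
    by_contra h3
    have := one_le_combBetti h1 h3
    unfold dimH at h
    omega
  obtain ⟨c, hc1, hc2⟩ := h2
  exact ⟨c, hc1, fun T _ => congrFun hc2 T⟩

/-- adding the elements of a set to all members of a family -/
theorem relAcyc_shift_set (ρ : Finset (Fin n)) : ∀ (Q : Finset (Fin n) → Prop),
    (∀ T, Q T → Disjoint T ρ) → ∀ l : ℕ, RelAcyc K Q l →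
    RelAcyc K (fun T => ρ ⊆ T ∧ Q (T \ ρ)) (l + ρ.card) := by
  classical
  induction ρ using Finset.induction_on with
  | empty =>
    intro _Q _ l h
    simpa using h
  | insert e ρ he ih =>
    intro Q hQ l h
    have h1 := ih Q (fun T hT => Disjoint.mono_right (Finset.subset_insert _ _) (hQ T hT)) l h
    have h2 := relAcyc_shift e (fun T => ρ ⊆ T ∧ Q (T \ ρ)) (fun T hT heT => by
      have h3 : e ∈ T \ ρ := Finset.mem_sdiff.2 ⟨heT, he⟩
      exact Finset.disjoint_left.1 (hQ _ hT.2) h3 (Finset.mem_insert_self _ _)) _ h1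
    rw [Finset.card_insert_of_notMem he, ← add_assoc]
    have h3 : (fun T => e ∈ T ∧ (ρ ⊆ T.erase e ∧ Q (T.erase e \ ρ))) =
        (fun T => insert e ρ ⊆ T ∧ Q (T \ insert e ρ)) := by
      funext T
      apply propext
      have h4 : T.erase e \ ρ = T \ insert e ρ := by
        ext x
        simp only [Finset.mem_sdiff, Finset.mem_erase, Finset.mem_insert, not_or]
        tauto
      rw [h4, Finset.insert_subset_iff, and_assoc]
      refine and_congr_right fun _ => and_congr_left fun _ => ?_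
      constructor
      · intro h5; exact h5.trans (Finset.erase_subset _ _)
      · intro h5 x hx
        exact Finset.mem_erase.2 ⟨fun h6 => he (h6 ▸ hx), h5 hx⟩
    rw [← h3]
    exact h2

/-- disjoint unions of families -/
theorem relAcyc_union (Q : Finset (Fin n) → Prop) (l : ℕ) (τ : Finset (Fin n))
    (Δ : Finset (Finset (Fin n))) (hΔ : ∀ σ ∈ Δ, ∀ τ, τ ⊆ σ → τ ∈ Δ)
    (A : Finset (Finset (Fin n)))
    (hA : ∀ σ ∈ A, ∀ σ' ∈ A, σ ≠ σ' → σ ∪ σ' ∉ Δ)
    (h : ∀ σ ∈ A, RelAcyc K (fun T => Disjoint T τ ∧ T ∪ τ ∈ Δ ∧ σ ⊆ T ∪ τ) l) :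
    RelAcyc K (fun T => Disjoint T τ ∧ T ∪ τ ∈ Δ ∧ ∃ σ ∈ A, σ ⊆ T ∪ τ) l := by
  classical
  induction A using Finset.induction_on with
  | empty =>
    refine relAcyc_of_empty _ l ?_
    rintro T ⟨-, -, σ, hσ, -⟩
    exact absurd hσ (Finset.notMem_empty _)
  | insert σ₀ A hσ₀ ih =>
    have ih' := ih (fun σ hσ σ' hσ' => hA σ (Finset.mem_insert_of_mem hσ) σ'
      (Finset.mem_insert_of_mem hσ')) (fun σ hσ => h σ (Finset.mem_insert_of_mem hσ))
    have h0 := h σ₀ (Finset.mem_insert_self _ _)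
    have sub : ∀ T j, T ∪ τ ⊆ insert j T ∪ τ := fun T j =>
      Finset.union_subset_union (Finset.subset_insert _ _) (Finset.Subset.refl _)
    refine relAcyc_filtration _ l (fun T => if σ₀ ⊆ T ∪ τ then 0 else 1) ?_ ?_ ?_
    · rintro T j ⟨h1, h2, σ, hσ, h3⟩ hj i hi ⟨h4, h5, -⟩
      refine ⟨h4.mono_left (Finset.subset_insert _ _), hΔ _ h5 _ (sub _ i), σ, hσ,
        h3.trans (sub _ j)⟩
    · rintro T j hj ⟨h1, h2, σ, hσ, h3⟩ ⟨h4, h5, σ', hσ', h6⟩
      by_cases h7 : σ₀ ⊆ T ∪ τ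
      · rw [if_pos h7, if_pos (h7.trans (sub _ j))]
      · rw [if_neg h7]
        split_ifs <;> omega
    · intro t
      by_cases ht0 : t = 0
      · subst ht0
        have heq : (fun T : Finset (Fin n) => (Disjoint T τ ∧ T ∪ τ ∈ Δ ∧
            ∃ σ ∈ insert σ₀ A, σ ⊆ T ∪ τ) ∧ (if σ₀ ⊆ T ∪ τ then 0 else 1) = 0) =
            (fun T => Disjoint T τ ∧ T ∪ τ ∈ Δ ∧ σ₀ ⊆ T ∪ τ) := by
          funext T
          apply propext
          constructor
          · rintro ⟨⟨h1, h2, -⟩, h3⟩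
            refine ⟨h1, h2, ?_⟩
            by_contra h4
            rw [if_neg h4] at h3
            exact absurd h3 one_ne_zero
          · rintro ⟨h1, h2, h3⟩
            exact ⟨⟨h1, h2, σ₀, Finset.mem_insert_self _ _, h3⟩, if_pos h3⟩
        rw [heq]
        exact h0
      by_cases ht1 : t = 1
      · subst ht1
        have heq : (fun T : Finset (Fin n) => (Disjoint T τ ∧ T ∪ τ ∈ Δ ∧
            ∃ σ ∈ insert σ₀ A, σ ⊆ T ∪ τ) ∧ (if σ₀ ⊆ T ∪ τ then 0 else 1) = 1) =
            (fun T => Disjoint T τ ∧ T ∪ τ ∈ Δ ∧ ∃ σ ∈ A, σ ⊆ T ∪ τ) := by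
          funext T
          apply propext
          constructor
          · rintro ⟨⟨h1, h2, σ, hσ, h5⟩, h3⟩
            have h4 : ¬ σ₀ ⊆ T ∪ τ := by
              intro h4
              rw [if_pos h4] at h3
              exact absurd h3 zero_ne_one
            refine ⟨h1, h2, σ, ?_, h5⟩
            rcases Finset.mem_insert.1 hσ with h6 | h6
            · exact absurd (h6 ▸ h5) h4
            · exact h6
          · rintro ⟨h1, h2, σ, hσ, h3⟩
            refine ⟨⟨h1, h2, σ, Finset.mem_insert_of_mem hσ, h3⟩, if_neg ?_⟩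
            intro h4
            have h5 : σ₀ ≠ σ := fun h => hσ₀ (h ▸ hσ)
            exact hA σ₀ (Finset.mem_insert_self _ _) σ (Finset.mem_insert_of_mem hσ) h5
              (hΔ _ h2 _ (Finset.union_subset h4 h3))
        rw [heq]
        exact ih'
      · refine relAcyc_of_empty _ l ?_
        rintro T ⟨-, h2⟩ -
        split_ifs at h2 <;> omega

end Pool.Agent.Q123.SR
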